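import Pool.Agent.H96Perc.Final

/-!
# Conditioned infinite percolation clusters are not stochastically increasing in `p`

The definitions (`V`, `Edge`, `Joins`, `perc`, `clusterV`, `clusterE`, `cluster`, `infCluster`,
`pc`, `condLaw`, `Subgr`) are in `Pool/Agent/H96Perc/Defs.lean`.

Idea of the proof.  Take the box `[0,n)^d`, a Hamiltonian path of the box which starts at the
origin, and an exit edge.  Let `T` be the set of all edges touching the box which are not on the
path.  That the cluster of the origin contains no edge of `T` is a decreasing event; for an
infinite cluster it forces all path edges to be open and all edges of `T` to be closed.  Since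
`p (1 - p)^(d - 1)` is strictly increasing on `[0, 1/d]`, the conditional probability of this event
is (for large `n`) larger at `p₂` than at `p₁` when `p₁ < p₂ ≤ 1/d`.  It remains to see that
`p_c(d) < 1/d` for some `d`, which is done (`d = 21`) by a second moment argument over paths
which are oriented in `d - 1` coordinates and may make one step in either direction along the
remaining coordinate before each oriented step.
-/

namespace Pool.Agent.Results.MP_7898df_pr.NoMonotoneCoupling

open MeasureTheory ProbabilityTheory Pool.Agent.H96Perc

universe u

/-- There are `d ≥ 2` and `p_c(d) < p₁ < p₂ ≤ 1` such that in every coupling of the open cluster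
of the origin at `p₁` conditioned to be infinite and the open cluster of the origin at `p₂`
conditioned to be infinite, the first is contained in the second with probability `< 1`. -/
theorem result : ∃ d : ℕ, 2 ≤ d ∧ ∃ p₁ p₂ : unitInterval, pc d < p₁ ∧ p₁ < p₂ ∧
    0 < perc d p₁ (infCluster d) ∧ 0 < perc d p₂ (infCluster d) ∧
    ∀ (Ω : Type u) [MeasurableSpace Ω] (P : Measure Ω) [IsProbabilityMeasure P]
      (X₁ X₂ : Ω → Subgr d), Measurable X₁ → Measurable X₂ →
      P.map X₁ = condLaw d p₁ → P.map X₂ = condLaw d p₂ →
      P {ω | (X₁ ω).1 ⊆ (X₂ ω).1 ∧ (X₁ ω).2 ⊆ (X₂ ω).2} < 1 :=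
  no_coupling

end Pool.Agent.Results.MP_7898df_pr.NoMonotoneCoupling
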